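import Pool.Agent.LT74.Low

/-!
# Lazy transpositions on pairs: small networks by computation
-/

namespace Pool.Agent.LT74

/-- the transposition on numbers -/
def sg (c : ℕ × ℕ) (p : ℕ) : ℕ := if p = c.1 then c.2 else if p = c.2 then c.1 else p

theorem sg_eq (c : ℕ × ℕ) (p : ℕ) : sg c p = Equiv.swap c.1 c.2 p := by
  rw [sg, Equiv.swap_apply_def]

/-- for each pair of positions, the set of the pairs from which it can be reached, as a number -/
def tab (n : ℕ) : List (ℕ × ℕ) → List ℕ
  | [] => (List.range (n * n)).map fun k => 1 <<< k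
  | c :: L => (List.range (n * n)).map fun k =>
      (tab n L).getD k 0 ||| (tab n L).getD (sg c (k / n) * n + sg c (k % n)) 0

/-- the check that all pairs can be reached from all pairs -/
def chk (n : ℕ) (L : List (ℕ × ℕ)) : Bool :=
  (L.all fun c => decide (c.1 < n) && decide (c.2 < n)) &&
  (List.range (n * n)).all fun k => (k / n == k % n) ||
    (List.range (n * n)).all fun s => (s / n == s % n) || ((tab n L).getD k 0).testBit s

theorem tab_spec (n : ℕ) (L : List (ℕ × ℕ)) (hL : ∀ c ∈ L, c.1 < n ∧ c.2 < n) (k s : ℕ)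
    (h : ((tab n L).getD k 0).testBit s = true) :
    Rch2 L (s / n, s % n) (k / n, k % n) := by
  induction L generalizing k with
  | nil =>
    by_cases hk : k < n * n
    · rw [tab, List.getD_eq_getElem _ _ (by simpa using hk)] at h
      rw [List.getElem_map, List.getElem_range, Nat.one_shiftLeft, Nat.testBit_two_pow] at h
      have h1 : k = s := of_decide_eq_true h
      rw [h1]
      rfl
    · rw [tab, List.getD_eq_default _ _ (by simpa using hk), Nat.zero_testBit] at h
      exact absurd h (by decide)
  | cons c L ih =>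
    have hL' : ∀ c ∈ L, c.1 < n ∧ c.2 < n := fun c hc => hL c (List.mem_cons_of_mem _ hc)
    by_cases hk : k < n * n
    · rw [tab, List.getD_eq_getElem _ _ (by simpa using hk)] at h
      rw [List.getElem_map, List.getElem_range, Nat.testBit_or, Bool.or_eq_true] at h
      rcases h with h | h
      · exact Or.inl (ih hL' k h)
      · right
        have h1 := ih hL' _ h
        have hn : 0 < n := by
          rcases Nat.eq_zero_or_pos n with h0 | h0
          · subst h0; simp at hk
          · exact h0
        have hc := hL c List.mem_cons_self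
        have h2 : sg c (k % n) < n := by
          rw [sg]
          have := Nat.mod_lt k hn
          split_ifs <;> omega
        have h3 : (sg c (k / n) * n + sg c (k % n)) / n = sg c (k / n) := by
          rw [Nat.add_comm, Nat.add_mul_div_right _ _ hn, Nat.div_eq_of_lt h2, Nat.zero_add]
        have h4 : (sg c (k / n) * n + sg c (k % n)) % n = sg c (k % n) := by
          rw [Nat.add_comm, Nat.add_mul_mod_self_right, Nat.mod_eq_of_lt h2]
        rw [h3, h4, sg_eq, sg_eq] at h1
        exact h1
    · rw [tab, List.getD_eq_default _ _ (by simpa using hk), Nat.zero_testBit] at h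
      exact absurd h (by decide)

theorem chk_spec {n : ℕ} {L : List (ℕ × ℕ)} (h : chk n L = true) :
    (∀ c ∈ L, c.1 < n ∧ c.2 < n) ∧ ∀ x x' p q : ℕ, x < n → x' < n → p < n → q < n →
      x ≠ x' → p ≠ q → Rch2 L (x, x') (p, q) := by
  rw [chk, Bool.and_eq_true, List.all_eq_true, List.all_eq_true] at h
  have hL : ∀ c ∈ L, c.1 < n ∧ c.2 < n := by
    intro c hc
    have h1 := h.1 c hc
    rw [Bool.and_eq_true, decide_eq_true_eq, decide_eq_true_eq] at h1
    exact h1
  refine ⟨hL, fun x x' p q hx hx' hp hq hxx hpq => ?_⟩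
  have hdiv : ∀ a b : ℕ, a < n → b < n → (a * n + b) / n = a ∧ (a * n + b) % n = b ∧
      a * n + b < n * n := by
    intro a b ha hb
    refine ⟨?_, ?_, ?_⟩
    · rw [Nat.add_comm, Nat.add_mul_div_right _ _ (by omega), Nat.div_eq_of_lt hb, Nat.zero_add]
    · rw [Nat.add_comm, Nat.add_mul_mod_self_right, Nat.mod_eq_of_lt hb]
    · nlinarith
  obtain ⟨e1, e2, e3⟩ := hdiv p q hp hq
  obtain ⟨f1, f2, f3⟩ := hdiv x x' hx hx'
  have h1 := h.2 (p * n + q) (List.mem_range.2 e3)
  rw [e1, e2, Bool.or_eq_true] at h1
  rcases h1 with h1 | h1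
  · exact absurd (beq_iff_eq.1 h1) hpq
  · rw [List.all_eq_true] at h1
    have h2 := h1 (x * n + x') (List.mem_range.2 f3)
    rw [f1, f2, Bool.or_eq_true] at h2
    rcases h2 with h2 | h2
    · exact absurd (beq_iff_eq.1 h2) hxx
    · have h3 := tab_spec n L hL _ _ h2
      rw [e1, e2, f1, f2] at h3
      exact h3

/-- the network: `T` is the list of the pairs `2 i + 2, 2 i + 3`, `Z` the list of the single
positions; the positions `0` and `1` are the hub -/
def net (T Z : List ℕ) : List (ℕ × ℕ) :=
  (T.map fun i => (2 * i + 2, 2 * i + 3)) ++ ((Z.map fun z => (z, 0)) ++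
  ((T.map fun i => (2 * i + 2, 0)) ++ ([(0, 1)] ++ ((Z.map fun z => (z, 0)) ++
  ((T.map fun i => (2 * i + 3, 0)) ++ ([(0, 1)] ++ ((T.map fun i => (2 * i + 2, 0)) ++
  (T.map fun i => (2 * i + 2, 2 * i + 3)))))))))

theorem chk_even : ∀ t < 5, chk (2 * t + 2) (net (List.range t) []) = true := by decide +kernel

theorem chk_odd : ∀ t < 5, chk (2 * t + 3) (net (List.range t) [2 * t + 2]) = true := by
  decide +kernel

end Pool.Agent.LT74
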