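import Mathlib

/-!
# Lazy transpositions on pairs: the lower bound

A network is a list of pairs (calls); the head of the list is the last call.  `Rch L p q`: a token
which starts in `p` can be in `q` after the calls of `L`; `Rch2`: the same for two tokens.
-/

namespace Pool.Agent.LT74

variable {V : Type*} [DecidableEq V]

/-- one token -/
def Rch : List (V × V) → V → V → Prop
  | [], p, q => p = q
  | c :: L, p, q => Rch L p q ∨ Rch L p (Equiv.swap c.1 c.2 q)

/-- two tokens -/
def Rch2 : List (V × V) → V × V → V × V → Prop
  | [], s, t => s = t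
  | c :: L, s, t => Rch2 L s t ∨ Rch2 L s (Equiv.swap c.1 c.2 t.1, Equiv.swap c.1 c.2 t.2)

theorem Rch2.fst {L : List (V × V)} {s t : V × V} (h : Rch2 L s t) : Rch L s.1 t.1 := by
  induction L generalizing t with
  | nil => exact congrArg Prod.fst h
  | cons c L ih =>
    rcases h with h | h
    · exact Or.inl (ih h)
    · exact Or.inr (ih h)

/-! ### positions which are reached from a set `X`, and calls with such a position -/

/-- the positions which can be reached from `X` -/
def al : List (V × V) → Finset V → Finset V
  | [], X => X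
  | c :: L, X => if c.1 ∈ al L X ∨ c.2 ∈ al L X then insert c.1 (insert c.2 (al L X)) else al L X

/-- the number of calls with a position reached from `X` -/
def nA : List (V × V) → Finset V → ℕ
  | [], _ => 0
  | c :: L, X => nA L X + if c.1 ∈ al L X ∨ c.2 ∈ al L X then 1 else 0

/-- the number of the other calls -/
def nD : List (V × V) → Finset V → ℕ
  | [], _ => 0
  | c :: L, X => nD L X + if c.1 ∈ al L X ∨ c.2 ∈ al L X then 0 else 1

theorem nA_add_nD (L : List (V × V)) (X : Finset V) : nA L X + nD L X = L.length := by
  induction L with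
  | nil => rfl
  | cons c L ih =>
    rw [nA, nD, List.length_cons, ← ih]
    split_ifs <;> omega

/-- the calls from which `Y` can be reached -/
def co : List (V × V) → Finset V → List (V × V)
  | [], _ => []
  | c :: L, Y => if c.1 ∈ Y ∨ c.2 ∈ Y then c :: co L (insert c.1 (insert c.2 Y)) else co L Y

theorem mem_al_co (L : List (V × V)) (X Y : Finset V) (p : V) (hp : p ∈ Y) :
    p ∈ al (co L Y) X ↔ p ∈ al L X := by
  induction L generalizing Y p with
  | nil => exact Iff.rfl
  | cons c L ih =>
    by_cases h : c.1 ∈ Y ∨ c.2 ∈ Y
    · rw [co, if_pos h, al, al]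
      have h1 := ih (insert c.1 (insert c.2 Y)) c.1 (Finset.mem_insert_self _ _)
      have h2 := ih (insert c.1 (insert c.2 Y)) c.2
        (Finset.mem_insert_of_mem (Finset.mem_insert_self _ _))
      have h3 := ih (insert c.1 (insert c.2 Y)) p
        (Finset.mem_insert_of_mem (Finset.mem_insert_of_mem hp))
      by_cases h4 : c.1 ∈ al L X ∨ c.2 ∈ al L X
      · rw [if_pos h4, if_pos ((or_congr h1 h2).2 h4)]
        rw [Finset.mem_insert, Finset.mem_insert, Finset.mem_insert, Finset.mem_insert, h3]
      · rw [if_neg h4, if_neg fun h5 => h4 ((or_congr h1 h2).1 h5)]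
        exact h3
    · rw [co, if_neg h, al, ih Y p hp]
      rw [not_or] at h
      have h1 : p ≠ c.1 := fun e => h.1 (e ▸ hp)
      have h2 : p ≠ c.2 := fun e => h.2 (e ▸ hp)
      split_ifs
      · rw [Finset.mem_insert, Finset.mem_insert]
        exact ⟨fun h3 => Or.inr (Or.inr h3), fun h3 => by
          rcases h3 with h3 | h3 | h3
          · exact absurd h3 h1
          · exact absurd h3 h2
          · exact h3⟩
      · exact Iff.rfl

theorem nD_co_le (L : List (V × V)) (X Y : Finset V) : nD (co L Y) X ≤ nD L X := by
  induction L generalizing Y with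
  | nil => exact le_rfl
  | cons c L ih =>
    by_cases h : c.1 ∈ Y ∨ c.2 ∈ Y
    · rw [co, if_pos h, nD, nD]
      have h1 := mem_al_co L X (insert c.1 (insert c.2 Y)) c.1 (Finset.mem_insert_self _ _)
      have h2 := mem_al_co L X (insert c.1 (insert c.2 Y)) c.2
        (Finset.mem_insert_of_mem (Finset.mem_insert_self _ _))
      have h3 := ih (insert c.1 (insert c.2 Y))
      by_cases h4 : c.1 ∈ al L X ∨ c.2 ∈ al L X
      · rw [if_pos h4, if_pos ((or_congr h1 h2).2 h4)]
        exact h3
      · rw [if_neg h4, if_neg fun h5 => h4 ((or_congr h1 h2).1 h5)]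
        exact Nat.add_le_add_right h3 1
    · rw [co, if_neg h, nD]
      exact (ih Y).trans (Nat.le_add_right _ _)

/-! ### components -/

/-- the component of `v` in the graph of the calls -/
def cp : List (V × V) → V → Finset V
  | [], v => {v}
  | c :: L, v => if v ∈ cp L c.1 ∪ cp L c.2 then cp L c.1 ∪ cp L c.2 else cp L v

theorem mem_cp (L : List (V × V)) (v : V) : v ∈ cp L v := by
  induction L generalizing v with
  | nil => exact Finset.mem_singleton_self v
  | cons c L ih =>
    rw [cp]
    split_ifs with h
    · exact h
    · exact ih v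

theorem cp_eq (L : List (V × V)) {v w : V} (h : w ∈ cp L v) : cp L w = cp L v := by
  induction L generalizing v w with
  | nil =>
    rw [cp, Finset.mem_singleton] at h
    rw [h]
  | cons c L ih =>
    rw [cp] at h
    rw [cp, cp]
    by_cases h1 : v ∈ cp L c.1 ∪ cp L c.2
    · rw [if_pos h1] at h
      rw [if_pos h1, if_pos h]
    · rw [if_neg h1] at h
      have h2 : w ∉ cp L c.1 ∪ cp L c.2 := by
        intro h2
        refine h1 ?_
        have h3 : v ∈ cp L w := by rw [ih h]; exact mem_cp L v
        rcases Finset.mem_union.1 h2 with h4 | h4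
        · rw [ih h4] at h3
          exact Finset.mem_union_left _ h3
        · rw [ih h4] at h3
          exact Finset.mem_union_right _ h3
      rw [if_neg h1, if_neg h2, ih h]

theorem cp_mono (c : V × V) (L : List (V × V)) {v w : V} (h : w ∈ cp L v) :
    w ∈ cp (c :: L) v := by
  rw [cp]
  split_ifs with h1
  · rcases Finset.mem_union.1 h1 with h2 | h2
    · rw [cp_eq L h2] at h
      exact Finset.mem_union_left _ h
    · rw [cp_eq L h2] at h
      exact Finset.mem_union_right _ h
  · exact h

theorem cp_call (c : V × V) (L : List (V × V)) : c.2 ∈ cp (c :: L) c.1 := by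
  rw [cp, if_pos (Finset.mem_union_left _ (mem_cp L c.1))]
  exact Finset.mem_union_right _ (mem_cp L c.2)

theorem cp_symm (L : List (V × V)) {v w : V} (h : w ∈ cp L v) : v ∈ cp L w := by
  rw [cp_eq L h]
  exact mem_cp L v

theorem cp_trans (L : List (V × V)) {u v w : V} (h : w ∈ cp L v) (h' : v ∈ cp L u) :
    w ∈ cp L u := by
  rw [← cp_eq L h']
  exact h

/-- a token stays in the component, and the calls which it meets lead to `Y` -/
theorem mem_cp_co (L : List (V × V)) (Y : Finset V) (x y : V) (hy : y ∈ Y) (h : Rch L x y) :
    x ∈ cp (co L Y) y := by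
  induction L generalizing Y y with
  | nil =>
    rw [show x = y from h]
    exact mem_cp _ _
  | cons c L ih =>
    by_cases hc : c.1 ∈ Y ∨ c.2 ∈ Y
    · rw [co, if_pos hc]
      rcases h with h | h
      · exact cp_mono _ _ (ih _ y (Finset.mem_insert_of_mem (Finset.mem_insert_of_mem hy)) h)
      · by_cases h1 : y = c.1
        · subst h1
          rw [Equiv.swap_apply_left] at h
          have h2 := ih (insert c.1 (insert c.2 Y)) c.2
            (Finset.mem_insert_of_mem (Finset.mem_insert_self _ _)) h
          exact cp_trans _ (cp_mono _ _ h2) (cp_call _ _)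
        · by_cases h2 : y = c.2
          · subst h2
            rw [Equiv.swap_apply_right] at h
            have h2 := ih (insert c.1 (insert c.2 Y)) c.1 (Finset.mem_insert_self _ _) h
            exact cp_trans _ (cp_mono _ _ h2) (cp_symm _ (cp_call _ _))
          · rw [Equiv.swap_apply_of_ne_of_ne h1 h2] at h
            exact cp_mono _ _ (ih _ y (Finset.mem_insert_of_mem (Finset.mem_insert_of_mem hy)) h)
    · rw [co, if_neg hc]
      rcases h with h | h
      · exact ih Y y hy h
      · rw [not_or] at hc
        have h1 : y ≠ c.1 := fun e => hc.1 (e ▸ hy)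
        have h2 : y ≠ c.2 := fun e => hc.2 (e ▸ hy)
        rw [Equiv.swap_apply_of_ne_of_ne h1 h2] at h
        exact ih Y y hy h

/-- the number of calls in a set `K` of positions -/
def en : List (V × V) → Finset V → ℕ
  | [], _ => 0
  | c :: L, K => en L K + if c.1 ∈ K then 1 else 0

theorem en_le (L : List (V × V)) (K : Finset V) : en L K ≤ L.length := by
  induction L with
  | nil => exact le_rfl
  | cons c L ih =>
    rw [en, List.length_cons]
    split_ifs <;> omega

theorem en_nil (K : Finset V) : en ([] : List (V × V)) K = 0 := rfl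

theorem en_union (L : List (V × V)) {K K' : Finset V} (h : Disjoint K K') :
    en L (K ∪ K') = en L K + en L K' := by
  induction L with
  | nil => rfl
  | cons c L ih =>
    rw [en, en, en, ih]
    by_cases h1 : c.1 ∈ K
    · have h2 : c.1 ∉ K' := Finset.disjoint_left.1 h h1
      rw [if_pos (Finset.mem_union_left _ h1), if_pos h1, if_neg h2]
      omega
    · by_cases h2 : c.1 ∈ K'
      · rw [if_pos (Finset.mem_union_right _ h2), if_neg h1, if_pos h2]
        omega
      · rw [if_neg (by rw [Finset.mem_union]; exact not_or.2 ⟨h1, h2⟩), if_neg h1, if_neg h2]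
        omega

/-- the positions reached from `X` are in the components of `X` -/
theorem al_subset_cp (L : List (V × V)) (X : Finset V) {p : V} (hp : p ∈ al L X) :
    ∃ x ∈ X, p ∈ cp L x := by
  induction L generalizing p with
  | nil => exact ⟨p, hp, mem_cp _ _⟩
  | cons c L ih =>
    rw [al] at hp
    split_ifs at hp with h
    · have h0 : ∃ x ∈ X, c.1 ∈ cp (c :: L) x := by
        rcases h with h | h
        · obtain ⟨x, hx, h1⟩ := ih h
          exact ⟨x, hx, cp_mono _ _ h1⟩
        · obtain ⟨x, hx, h1⟩ := ih h
          exact ⟨x, hx, cp_trans _ (cp_symm _ (cp_call c L)) (cp_mono _ _ h1)⟩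
      rw [Finset.mem_insert, Finset.mem_insert] at hp
      rcases hp with hp | hp | hp
      · rw [hp]; exact h0
      · rw [hp]
        obtain ⟨x, hx, h1⟩ := h0
        exact ⟨x, hx, cp_trans _ (cp_call c L) h1⟩
      · obtain ⟨x, hx, h1⟩ := ih hp
        exact ⟨x, hx, cp_mono _ _ h1⟩
    · obtain ⟨x, hx, h1⟩ := ih hp
      exact ⟨x, hx, cp_mono _ _ h1⟩

/-- calls outside the component are not counted -/
theorem nA_cons_of_not (c : V × V) (L : List (V × V)) (X : Finset V) {K : Finset V}
    (hX : ∀ x ∈ X, cp L x = K) (h1 : c.1 ∉ K) (h2 : c.2 ∉ K) : nA (c :: L) X = nA L X := by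
  rw [nA, if_neg, Nat.add_zero]
  rintro (h | h)
  · obtain ⟨x, hx, h3⟩ := al_subset_cp L X h
    rw [hX x hx] at h3
    exact h1 h3
  · obtain ⟨x, hx, h3⟩ := al_subset_cp L X h
    rw [hX x hx] at h3
    exact h2 h3

theorem nA_cons_le (c : V × V) (L : List (V × V)) (X : Finset V) :
    nA (c :: L) X ≤ nA L X + 1 := by
  rw [nA]
  split_ifs <;> omega

theorem al_union (L : List (V × V)) (X X' : Finset V) : al L (X ∪ X') = al L X ∪ al L X' := by
  induction L with
  | nil => rfl
  | cons c L ih =>
    rw [al, al, al, ih]
    by_cases h1 : c.1 ∈ al L X ∨ c.2 ∈ al L X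
    · rw [if_pos h1]
      have h2 : c.1 ∈ al L X ∪ al L X' ∨ c.2 ∈ al L X ∪ al L X' := by
        rcases h1 with h | h
        · exact Or.inl (Finset.mem_union_left _ h)
        · exact Or.inr (Finset.mem_union_left _ h)
      rw [if_pos h2]
      split_ifs with h3
      · ext q
        simp only [Finset.mem_insert, Finset.mem_union]
        tauto
      · ext q
        simp only [Finset.mem_insert, Finset.mem_union]
        tauto
    · rw [if_neg h1]
      by_cases h3 : c.1 ∈ al L X' ∨ c.2 ∈ al L X'
      · have h2 : c.1 ∈ al L X ∪ al L X' ∨ c.2 ∈ al L X ∪ al L X' := by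
          rcases h3 with h | h
          · exact Or.inl (Finset.mem_union_right _ h)
          · exact Or.inr (Finset.mem_union_right _ h)
        rw [if_pos h3, if_pos h2]
        ext q
        simp only [Finset.mem_insert, Finset.mem_union]
        tauto
      · have h2 : ¬ (c.1 ∈ al L X ∪ al L X' ∨ c.2 ∈ al L X ∪ al L X') := by
          simp only [Finset.mem_union]
          tauto
        rw [if_neg h3, if_neg h2]

theorem nA_union_le (L : List (V × V)) (X X' : Finset V) :
    nA L (X ∪ X') ≤ nA L X + nA L X' := by
  induction L with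
  | nil => exact le_rfl
  | cons c L ih =>
    rw [nA, nA, nA, al_union]
    by_cases h2 : c.1 ∈ al L X ∪ al L X' ∨ c.2 ∈ al L X ∪ al L X'
    · rw [if_pos h2]
      have h3 : (c.1 ∈ al L X ∨ c.2 ∈ al L X) ∨ (c.1 ∈ al L X' ∨ c.2 ∈ al L X') := by
        simp only [Finset.mem_union] at h2
        tauto
      rcases h3 with h3 | h3
      · rw [if_pos h3]
        split_ifs <;> omega
      · rw [if_pos h3]
        split_ifs <;> omega
    · rw [if_neg h2]
      omega

/-- the number of calls reached from `X` in a component `K` is at most the number of calls of `K` -/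
theorem nA_le_en (L : List (V × V)) (x : V) : nA L {x} ≤ en L (cp L x) := by
  induction L with
  | nil => exact le_rfl
  | cons c L ih =>
    rw [nA, en]
    have h0 : en L (cp L x) ≤ en L (cp (c :: L) x) := by
      have hm : ∀ M : List (V × V), ∀ K K' : Finset V, K ⊆ K' → en M K ≤ en M K' := by
        intro M K K' hK
        induction M with
        | nil => exact le_rfl
        | cons d M ihM =>
          rw [en, en]
          by_cases h1 : d.1 ∈ K
          · rw [if_pos h1, if_pos (hK h1)]; omega
          · rw [if_neg h1]
            omega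
      exact hm L _ _ fun q hq => cp_mono c L hq
    by_cases h1 : c.1 ∈ al L {x} ∨ c.2 ∈ al L {x}
    · rw [if_pos h1]
      have h2 : c.1 ∈ cp (c :: L) x := by
        rcases h1 with h | h
        · obtain ⟨y, hy, h3⟩ := al_subset_cp L _ h
          rw [Finset.mem_singleton] at hy
          subst hy
          exact cp_mono _ _ h3
        · obtain ⟨y, hy, h3⟩ := al_subset_cp L _ h
          rw [Finset.mem_singleton] at hy
          subst hy
          exact cp_trans _ (cp_symm _ (cp_call c L)) (cp_mono _ _ h3)
      rw [if_pos h2]
      omega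
    · rw [if_neg h1]
      omega

theorem log_add {a b : ℕ} (ha : 1 ≤ a) (hab : a ≤ b) :
    Nat.log 2 a + 1 ≤ Nat.log 2 (a + b) := by
  rw [← Nat.log_mul_base (by norm_num) (by omega)]
  exact Nat.log_mono_right (by omega)

/-- the three statements on a component `K` -/
structure Good (L : List (V × V)) (K : Finset V) : Prop where
  card : K.card ≤ en L K + 1
  one : ∃ x ∈ K, nA L {x} + K.card ≤ Nat.log 2 K.card + en L K + 1
  two : 2 ≤ K.card → ∃ x ∈ K, ∃ w ∈ K, x ≠ w ∧
    nA L {x, w} + K.card ≤ Nat.log 2 K.card + en L K + 2

theorem nA_pair_le (L : List (V × V)) (x w : V) : nA L {x, w} ≤ nA L {x} + nA L {w} :=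
  nA_union_le L {x} {w}

/-- the step for two components -/
theorem Good.join {c : V × V} {L : List (V × V)} {K1 K2 : Finset V} (h1 : Good L K1)
    (h2 : Good L K2) (hK1 : ∀ x ∈ K1, cp L x = K1) (hd : Disjoint K1 K2) (hc : K1.card ≤ K2.card)
    (h0 : 1 ≤ K1.card) (hen : en (c :: L) (K1 ∪ K2) = en L K1 + en L K2 + 1) :
    Good (c :: L) (K1 ∪ K2) := by
  have hcard : (K1 ∪ K2).card = K1.card + K2.card := Finset.card_union_of_disjoint hd
  have hlog := log_add h0 hc
  have e1 := h1.card
  have e2 := h2.card
  refine ⟨by omega, ?_, ?_⟩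
  · obtain ⟨x, hx, h3⟩ := h1.one
    refine ⟨x, Finset.mem_union_left _ hx, ?_⟩
    have h4 := nA_cons_le c L {x}
    rw [hcard, hen]
    omega
  · intro _
    by_cases h3 : 2 ≤ K1.card
    · obtain ⟨x, hx, w, hw, hxw, h4⟩ := h1.two h3
      refine ⟨x, Finset.mem_union_left _ hx, w, Finset.mem_union_left _ hw, hxw, ?_⟩
      have h5 := nA_cons_le c L {x, w}
      rw [hcard, hen]
      omega
    · obtain ⟨x, hx⟩ := Finset.card_pos.1 h0
      obtain ⟨w, hw, h4⟩ := h2.one
      refine ⟨x, Finset.mem_union_left _ hx, w, Finset.mem_union_right _ hw, ?_, ?_⟩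
      · rintro rfl
        exact Finset.disjoint_left.1 hd hx hw
      · have h5 := nA_cons_le c L {x, w}
        have h6 := nA_pair_le L x w
        have h7 := nA_le_en L x
        rw [hK1 x hx] at h7
        have h8 : Nat.log 2 K2.card ≤ Nat.log 2 (K1.card + K2.card) :=
          Nat.log_mono_right (by omega)
        rw [hcard, hen]
        omega

theorem good_cp (L : List (V × V)) (v : V) : Good L (cp L v) := by
  induction L generalizing v with
  | nil =>
    have hc : (cp ([] : List (V × V)) v).card = 1 := Finset.card_singleton v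
    refine ⟨by rw [hc]; omega, ⟨v, mem_cp _ _, ?_⟩, fun h => ?_⟩
    · rw [hc, nA]; omega
    · omega
  | cons c L ih =>
    have hcp : ∀ u, ∀ x ∈ cp L u, cp L x = cp L u := fun u x hx => cp_eq L hx
    by_cases hv : v ∈ cp L c.1 ∪ cp L c.2
    · have hK : cp (c :: L) v = cp L c.1 ∪ cp L c.2 := by rw [cp, if_pos hv]
      rw [hK]
      have hpos : ∀ u, 1 ≤ (cp L u).card := fun u => Finset.card_pos.2 ⟨u, mem_cp L u⟩
      by_cases h1 : c.2 ∈ cp L c.1
      · -- the same component
        have h2 : cp L c.2 = cp L c.1 := hcp _ _ h1
        rw [h2, Finset.union_self]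
        have h3 : en (c :: L) (cp L c.1) = en L (cp L c.1) + 1 := by
          rw [en, if_pos (mem_cp L c.1)]
        have h4 := ih c.1
        refine ⟨by have := h4.card; omega, ?_, fun h5 => ?_⟩
        · obtain ⟨x, hx, h5⟩ := h4.one
          refine ⟨x, hx, ?_⟩
          have h6 := nA_cons_le c L {x}
          omega
        · obtain ⟨x, hx, w, hw, hxw, h6⟩ := h4.two h5
          refine ⟨x, hx, w, hw, hxw, ?_⟩
          have h7 := nA_cons_le c L {x, w}
          omega
      · have hd : Disjoint (cp L c.1) (cp L c.2) := by
          rw [Finset.disjoint_left]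
          intro x hx hx'
          refine h1 ?_
          rw [← hcp _ _ hx, hcp _ _ hx']
          exact mem_cp L c.2
        have hen : en (c :: L) (cp L c.1 ∪ cp L c.2)
            = en L (cp L c.1) + en L (cp L c.2) + 1 := by
          rw [en, if_pos (Finset.mem_union_left _ (mem_cp L c.1)), en_union L hd]
        rcases le_total (cp L c.1).card (cp L c.2).card with h2 | h2
        · exact (ih c.1).join (ih c.2) (hcp _) hd h2 (hpos _) hen
        · rw [Finset.union_comm] at hen ⊢
          exact (ih c.2).join (ih c.1) (hcp _) hd.symm h2 (hpos _) (by omega)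
    · have hK : cp (c :: L) v = cp L v := by rw [cp, if_neg hv]
      rw [hK]
      have h1 : c.1 ∉ cp L v := fun h => hv (Finset.mem_union_left _ (cp_symm L h))
      have h2 : c.2 ∉ cp L v := fun h => hv (Finset.mem_union_right _ (cp_symm L h))
      have h3 : en (c :: L) (cp L v) = en L (cp L v) := by rw [en, if_neg h1, Nat.add_zero]
      have h4 := ih v
      refine ⟨by rw [h3]; exact h4.card, ?_, fun h5 => ?_⟩
      · obtain ⟨x, hx, h6⟩ := h4.one
        refine ⟨x, hx, ?_⟩
        rw [h3, nA_cons_of_not c L {x} (K := cp L v) ?_ h1 h2]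
        · exact h6
        · intro y hy
          rw [Finset.mem_singleton] at hy
          subst hy
          exact hcp _ _ hx
      · obtain ⟨x, hx, w, hw, hxw, h6⟩ := h4.two h5
        refine ⟨x, hx, w, hw, hxw, ?_⟩
        rw [h3, nA_cons_of_not c L {x, w} (K := cp L v) ?_ h1 h2]
        · exact h6
        · intro y hy
          rw [Finset.mem_insert, Finset.mem_singleton] at hy
          rcases hy with rfl | rfl
          · exact hcp _ _ hx
          · exact hcp _ _ hw

/-! ### the calls reached from two positions -/

/-- the labels: `0` at the positions which are not reached -/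
def lab (x x' : V) : List (V × V) → V → ℕ
  | [], p => if p = x then 1 else if p = x' then 2 else 0
  | c :: L, p =>
    if lab x x' L c.1 = 0 ∧ lab x x' L c.2 = 0 then lab x x' L p
    else if lab x x' L c.1 = 0 ∨ lab x x' L c.2 = 0 then
      (if p = c.1 ∨ p = c.2 then lab x x' L c.1 + lab x x' L c.2 else lab x x' L p)
    else if p = c.1 then 2 * L.length + 3 else if p = c.2 then 2 * L.length + 4 else lab x x' L p

theorem lab_le (x x' : V) (L : List (V × V)) (p : V) : lab x x' L p ≤ 2 * L.length + 2 := by
  induction L generalizing p with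
  | nil =>
    rw [lab]
    split_ifs <;> simp
  | cons c L ih =>
    have h1 := ih c.1
    have h2 := ih c.2
    have h3 := ih p
    rw [lab, List.length_cons]
    split_ifs with h4 h5 <;> omega

theorem lab_ne_zero (x x' : V) (L : List (V × V)) (p : V) :
    lab x x' L p ≠ 0 ↔ p ∈ al L {x, x'} := by
  induction L generalizing p with
  | nil =>
    rw [lab, al, Finset.mem_insert, Finset.mem_singleton]
    split_ifs with h1 h2 <;> simp_all
  | cons c L ih =>
    have h1 := ih c.1
    have h2 := ih c.2
    have h3 := ih p
    rw [lab, al]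
    by_cases h4 : c.1 ∈ al L {x, x'} ∨ c.2 ∈ al L {x, x'}
    · rw [if_pos h4]
      rw [← h1, ← h2] at h4
      rw [if_neg (by tauto), Finset.mem_insert, Finset.mem_insert, ← h3]
      split_ifs with h5 h6 h6 h7
      · exact iff_of_true (by omega) (by tauto)
      · tauto
      · exact iff_of_true (by omega) (Or.inl h6)
      · exact iff_of_true (by omega) (Or.inr (Or.inl h7))
      · tauto
    · rw [if_neg h4]
      rw [← h1, ← h2] at h4
      rw [if_pos (by tauto)]
      exact h3

theorem mem_al_of_rch {L : List (V × V)} {X : Finset V} {x p : V} (hx : x ∈ X)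
    (h : Rch L x p) : p ∈ al L X := by
  induction L generalizing p with
  | nil =>
    rw [← show x = p from h]
    exact hx
  | cons c L ih =>
    rw [al]
    rcases h with h | h
    · have h1 := ih h
      split_ifs
      · exact Finset.mem_insert_of_mem (Finset.mem_insert_of_mem h1)
      · exact h1
    · have h1 := ih h
      by_cases h2 : p = c.1
      · rw [h2, Equiv.swap_apply_left] at h1
        rw [if_pos (Or.inr h1), h2]
        exact Finset.mem_insert_self _ _
      · by_cases h3 : p = c.2
        · rw [h3, Equiv.swap_apply_right] at h1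
          rw [if_pos (Or.inl h1), h3]
          exact Finset.mem_insert_of_mem (Finset.mem_insert_self _ _)
        · rw [Equiv.swap_apply_of_ne_of_ne h2 h3] at h1
          split_ifs
          · exact Finset.mem_insert_of_mem (Finset.mem_insert_of_mem h1)
          · exact h1

theorem Rch2.snd {L : List (V × V)} {s t : V × V} (h : Rch2 L s t) : Rch L s.2 t.2 := by
  induction L generalizing t with
  | nil => exact congrArg Prod.snd h
  | cons c L ih =>
    rcases h with h | h
    · exact Or.inl (ih h)
    · exact Or.inr (ih h)

/-- two tokens are never at positions with the same label -/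
theorem lab_ne {x x' : V} {L : List (V × V)} {p q : V} (h : Rch2 L (x, x') (p, q))
    (hpq : p ≠ q) : lab x x' L p ≠ lab x x' L q := by
  induction L generalizing p q with
  | nil =>
    have h1 : (x, x') = (p, q) := h
    rw [Prod.mk.injEq] at h1
    obtain ⟨rfl, rfl⟩ := h1
    rw [lab, lab, if_pos rfl, if_neg hpq.symm, if_pos rfl]
    decide
  | cons c L ih =>
    have hr : ∀ {a b : V}, Rch2 L (x, x') (a, b) → lab x x' L a ≠ 0 ∧ lab x x' L b ≠ 0 := by
      intro a b hab
      rw [lab_ne_zero, lab_ne_zero]
      exact ⟨mem_al_of_rch (Finset.mem_insert_self _ _) hab.fst,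
        mem_al_of_rch (Finset.mem_insert_of_mem (Finset.mem_singleton_self _)) hab.snd⟩
    have hle := lab_le x x' L
    -- the positions before the call
    obtain ⟨p', q', hp', hq', h1, hne, h2, h3⟩ : ∃ p' q', lab x x' L p' ≠ 0 ∧
        lab x x' L q' ≠ 0 ∧ Rch2 L (x, x') (p', q') ∧ p' ≠ q' ∧
        (p' = p ∧ q' = q ∨ p' = Equiv.swap c.1 c.2 p ∧ q' = Equiv.swap c.1 c.2 q) ∧
        lab x x' L p' ≠ lab x x' L q' := by
      rcases h with h | h
      · exact ⟨p, q, (hr h).1, (hr h).2, h, hpq, Or.inl ⟨rfl, rfl⟩, ih h hpq⟩
      · have hne : Equiv.swap c.1 c.2 p ≠ Equiv.swap c.1 c.2 q := fun e =>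
          hpq ((Equiv.swap c.1 c.2).injective e)
        exact ⟨_, _, (hr h).1, (hr h).2, h, hne, Or.inr ⟨rfl, rfl⟩, ih h hne⟩
    rw [lab, lab]
    -- the new label in terms of the old one, when one of the two positions is not reached
    by_cases hd : lab x x' L c.1 = 0 ∧ lab x x' L c.2 = 0
    · rw [if_pos hd, if_pos hd]
      have hk : ∀ a : V, lab x x' L (Equiv.swap c.1 c.2 a) ≠ 0 → Equiv.swap c.1 c.2 a = a := by
        intro a ha
        by_cases h4 : a = c.1
        · rw [h4, Equiv.swap_apply_left] at ha
          exact absurd hd.2 ha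
        · by_cases h5 : a = c.2
          · rw [h5, Equiv.swap_apply_right] at ha
            exact absurd hd.1 ha
          · exact Equiv.swap_apply_of_ne_of_ne h4 h5
      rcases h2 with ⟨h4, h5⟩ | ⟨h4, h5⟩
      · rw [← h4, ← h5]; exact h3
      · rw [h4] at hp'
        rw [h5] at hq'
        rw [h4, h5, hk p hp', hk q hq'] at h3
        exact h3
    · rw [if_neg hd, if_neg hd]
      by_cases hb : lab x x' L c.1 = 0 ∨ lab x x' L c.2 = 0
      · rw [if_pos hb, if_pos hb]
        have hk : ∀ a a' : V, lab x x' L a' ≠ 0 → (a' = a ∨ a' = Equiv.swap c.1 c.2 a) →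
            (if a = c.1 ∨ a = c.2 then lab x x' L c.1 + lab x x' L c.2 else lab x x' L a)
              = lab x x' L a' := by
          intro a a' ha' h4
          by_cases h5 : a = c.1 ∨ a = c.2
          · rw [if_pos h5]
            have h6 : a' = c.1 ∨ a' = c.2 := by
              rcases h4 with rfl | rfl
              · exact h5
              · rcases h5 with rfl | rfl
                · exact Or.inr (Equiv.swap_apply_left _ _)
                · exact Or.inl (Equiv.swap_apply_right _ _)
            rcases h6 with rfl | rfl
            · rcases hb with hb | hb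
              · exact absurd hb ha'
              · rw [hb, Nat.add_zero]
            · rcases hb with hb | hb
              · rw [hb, Nat.zero_add]
              · exact absurd hb ha'
          · rw [if_neg h5]
            rw [not_or] at h5
            rcases h4 with rfl | rfl
            · rfl
            · rw [Equiv.swap_apply_of_ne_of_ne h5.1 h5.2]
        rw [hk p p' hp' (h2.imp (fun h => h.1) (fun h => h.1)),
          hk q q' hq' (h2.imp (fun h => h.2) (fun h => h.2))]
        exact h3
      · rw [if_neg hb, if_neg hb]
        have e1 := hle p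
        have e2 := hle q
        by_cases h4 : p = c.1
        · rw [if_pos h4]
          have h5 : q ≠ c.1 := fun e => hpq (h4.trans e.symm)
          rw [if_neg h5]
          split_ifs <;> omega
        · rw [if_neg h4]
          by_cases h5 : p = c.2
          · rw [if_pos h5]
            have h6 : q ≠ c.2 := fun e => hpq (h5.trans e.symm)
            rw [if_neg h6]
            split_ifs <;> omega
          · rw [if_neg h5]
            by_cases h6 : q = c.1
            · rw [if_pos h6]; omega
            · rw [if_neg h6]
              by_cases h7 : q = c.2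
              · rw [if_pos h7]; omega
              · rw [if_neg h7]
                rcases h2 with ⟨h8, h9⟩ | ⟨h8, h9⟩
                · rw [← h8, ← h9]; exact h3
                · rw [Equiv.swap_apply_of_ne_of_ne h4 h5] at h8
                  rw [Equiv.swap_apply_of_ne_of_ne h6 h7] at h9
                  rw [← h8, ← h9]; exact h3

section

variable [Fintype V]

/-- the potential: twice the number of reached positions plus the number of labels -/
theorem pot (x x' : V) (L : List (V × V)) :
    2 * (Finset.univ.filter fun p => lab x x' L p ≠ 0).card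
      + ((Finset.univ.filter fun p => lab x x' L p ≠ 0).image (lab x x' L)).card
      ≤ 2 * nA L {x, x'} + 6 := by
  induction L with
  | nil =>
    have h1 : (Finset.univ.filter fun p => lab x x' ([] : List (V × V)) p ≠ 0).card ≤ 2 := by
      refine (Finset.card_le_card (t := {x, x'}) fun p hp => ?_).trans Finset.card_le_two
      rw [Finset.mem_filter, lab_ne_zero] at hp
      exact hp.2
    have h2 := Finset.card_image_le (s := Finset.univ.filter fun p =>
      lab x x' ([] : List (V × V)) p ≠ 0) (f := lab x x' ([] : List (V × V)))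
    omega
  | cons c L ih =>
    rw [nA]
    obtain ⟨A, hA⟩ : ∃ A, A = Finset.univ.filter fun p => lab x x' L p ≠ 0 := ⟨_, rfl⟩
    obtain ⟨A', hA'⟩ : ∃ A', A' = Finset.univ.filter fun p => lab x x' (c :: L) p ≠ 0 := ⟨_, rfl⟩
    have mA : ∀ p, p ∈ A ↔ lab x x' L p ≠ 0 := by
      intro p; rw [hA, Finset.mem_filter]; exact ⟨fun h => h.2, fun h => ⟨Finset.mem_univ _, h⟩⟩
    have mA' : ∀ p, p ∈ A' ↔ lab x x' (c :: L) p ≠ 0 := by
      intro p; rw [hA', Finset.mem_filter]; exact ⟨fun h => h.2, fun h => ⟨Finset.mem_univ _, h⟩⟩
    rw [← hA] at ih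
    rw [← hA']
    by_cases hd : lab x x' L c.1 = 0 ∧ lab x x' L c.2 = 0
    · have h1 : ∀ p, lab x x' (c :: L) p = lab x x' L p := fun p => by rw [lab, if_pos hd]
      have h2 : A' = A := by
        ext p; rw [mA, mA', h1]
      have h3 : A'.image (lab x x' (c :: L)) = A.image (lab x x' L) := by
        rw [h2]; exact Finset.image_congr fun p _ => h1 p
      rw [h3, h2]
      omega
    · have ha : c.1 ∈ al L {x, x'} ∨ c.2 ∈ al L {x, x'} := by
        rw [← lab_ne_zero, ← lab_ne_zero]
        tauto
      rw [if_pos ha]
      by_cases hb : lab x x' L c.1 = 0 ∨ lab x x' L c.2 = 0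
      · have h1 : ∀ p, lab x x' (c :: L) p = if p = c.1 ∨ p = c.2 then
            lab x x' L c.1 + lab x x' L c.2 else lab x x' L p := fun p => by
          rw [lab, if_neg hd, if_pos hb]
        -- the reached one and the other one
        obtain ⟨u, v, hu, hv, huv, hsum⟩ : ∃ u v, lab x x' L u ≠ 0 ∧ lab x x' L v = 0 ∧
            (∀ p, (p = c.1 ∨ p = c.2) → p = u ∨ p = v) ∧
            lab x x' L c.1 + lab x x' L c.2 = lab x x' L u := by
          rcases hb with hb | hb
          · refine ⟨c.2, c.1, fun h => hd ⟨hb, h⟩, hb, fun p hp => hp.symm, by rw [hb, Nat.zero_add]⟩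
          · refine ⟨c.1, c.2, fun h => hd ⟨h, hb⟩, hb, fun p hp => hp, by rw [hb, Nat.add_zero]⟩
        have h2 : A' ⊆ insert v A := by
          intro p hp
          rw [mA', h1] at hp
          rw [Finset.mem_insert, mA]
          by_cases h3 : p = c.1 ∨ p = c.2
          · rcases huv p h3 with h4 | h4
            · right; rw [h4]; exact hu
            · left; exact h4
          · rw [if_neg h3] at hp
            exact Or.inr hp
        have h3 : A'.image (lab x x' (c :: L)) ⊆ A.image (lab x x' L) := by
          intro m hm
          obtain ⟨p, hp, rfl⟩ := Finset.mem_image.1 hm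
          rw [mA'] at hp
          rw [h1] at hp ⊢
          by_cases h4 : p = c.1 ∨ p = c.2
          · rw [if_pos h4, hsum]
            exact Finset.mem_image.2 ⟨u, (mA u).2 hu, rfl⟩
          · rw [if_neg h4] at hp ⊢
            exact Finset.mem_image.2 ⟨p, (mA p).2 hp, rfl⟩
        have h4 := (Finset.card_le_card h2).trans (Finset.card_insert_le _ _)
        have h5 := Finset.card_le_card h3
        omega
      · have h1 : ∀ p, lab x x' (c :: L) p = if p = c.1 then 2 * L.length + 3 else
            if p = c.2 then 2 * L.length + 4 else lab x x' L p := fun p => by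
          rw [lab, if_neg hd, if_neg hb]
        rw [not_or] at hb
        have h2 : A' ⊆ A := by
          intro p hp
          rw [mA', h1] at hp
          rw [mA]
          by_cases h3 : p = c.1
          · rw [h3]; exact hb.1
          · by_cases h4 : p = c.2
            · rw [h4]; exact hb.2
            · rw [if_neg h3, if_neg h4] at hp
              exact hp
        have h3 : A'.image (lab x x' (c :: L)) ⊆
            insert (2 * L.length + 3) (insert (2 * L.length + 4) (A.image (lab x x' L))) := by
          intro m hm
          obtain ⟨p, hp, rfl⟩ := Finset.mem_image.1 hm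
          rw [mA'] at hp
          rw [h1] at hp ⊢
          by_cases h3 : p = c.1
          · rw [if_pos h3]; exact Finset.mem_insert_self _ _
          · rw [if_neg h3] at hp ⊢
            by_cases h4 : p = c.2
            · rw [if_pos h4]; exact Finset.mem_insert_of_mem (Finset.mem_insert_self _ _)
            · rw [if_neg h4] at hp ⊢
              exact Finset.mem_insert_of_mem (Finset.mem_insert_of_mem
                (Finset.mem_image.2 ⟨p, (mA p).2 hp, rfl⟩))
        have h4 := Finset.card_le_card h2
        have h5 := ((Finset.card_le_card h3).trans (Finset.card_insert_le _ _)).trans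
          (Nat.add_le_add_right (Finset.card_insert_le _ _) 1)
        omega

/-- the lower bound -/
theorem low (L : List (V × V)) (hn : 2 ≤ Fintype.card V)
    (h : ∀ x x' p q : V, x ≠ x' → p ≠ q → Rch2 L (x, x') (p, q)) :
    5 * Fintype.card V ≤ 2 * L.length + 2 * Nat.log 2 (Fintype.card V) + 10 := by
  have hother : ∀ a : V, ∃ b, a ≠ b := by
    intro a
    obtain ⟨b, hb⟩ := Fintype.exists_ne_of_one_lt_card (show 1 < Fintype.card V by omega) a
    exact ⟨b, hb.symm⟩
  obtain ⟨y⟩ : Nonempty V := Fintype.card_pos_iff.1 (by omega)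
  have hcp : cp (co L {y}) y = Finset.univ := by
    refine Finset.eq_univ_of_forall fun x => ?_
    obtain ⟨x', hx'⟩ := hother x
    obtain ⟨q, hq⟩ := hother y
    exact mem_cp_co L {y} x y (Finset.mem_singleton_self y) (h x x' y q hx' hq).fst
  have hgood := good_cp (co L {y}) y
  rw [hcp] at hgood
  obtain ⟨x, -, x', -, hxx, h1⟩ := hgood.two (by rw [Finset.card_univ]; exact hn)
  rw [Finset.card_univ] at h1
  have h2 := en_le (co L {y}) Finset.univ
  have h3 := nA_add_nD (co L {y}) {x, x'}
  have h4 := nD_co_le L {x, x'} {y}
  have h5 := nA_add_nD L {x, x'}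
  have h6 := pot x x' L
  have h7 : (Finset.univ.filter fun p => lab x x' L p ≠ 0) = Finset.univ := by
    rw [Finset.filter_eq_self]
    intro p _
    obtain ⟨q, hq⟩ := hother p
    rw [lab_ne_zero]
    exact mem_al_of_rch (Finset.mem_insert_self _ _) (h x x' p q hxx hq).fst
  have h8 : (Finset.univ.image (lab x x' L)).card = Fintype.card V := by
    rw [Finset.card_image_of_injective, Finset.card_univ]
    intro p q hpq
    by_contra hne
    exact lab_ne (h x x' p q hxx hne) hne hpq
  rw [h7, h8, Finset.card_univ] at h6
  omega

end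

end Pool.Agent.LT74
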