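import Pool.Agent.LT74.Chk

/-!
# Lazy transpositions on pairs: the upper bound
-/

namespace Pool.Agent.LT74

section

variable {V W : Type*} [DecidableEq V] [DecidableEq W]

theorem Rch2.sublist {L L' : List (V × V)} (hL : L.Sublist L') {s t : V × V} (h : Rch2 L s t) :
    Rch2 L' s t := by
  induction hL generalizing t with
  | slnil => exact h
  | cons a _ ih => exact Or.inl (ih h)
  | cons_cons a _ ih =>
    rcases h with h | h
    · exact Or.inl (ih h)
    · exact Or.inr (ih h)

theorem Rch2.map {L : List (V × V)} {S : Set V} {f : V → W} (hf : Set.InjOn f S)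
    (hL : ∀ c ∈ L, c.1 ∈ S ∧ c.2 ∈ S) {s t : V × V} (h1 : t.1 ∈ S) (h2 : t.2 ∈ S)
    (h : Rch2 L s t) : Rch2 (L.map fun c => (f c.1, f c.2)) (f s.1, f s.2) (f t.1, f t.2) := by
  induction L generalizing t with
  | nil =>
    rw [show s = t from h]
    rfl
  | cons c L ih =>
    have hL' : ∀ c ∈ L, c.1 ∈ S ∧ c.2 ∈ S := fun c hc => hL c (List.mem_cons_of_mem _ hc)
    have hc := hL c List.mem_cons_self
    have key : ∀ p ∈ S, Equiv.swap c.1 c.2 p ∈ S ∧
        f (Equiv.swap c.1 c.2 p) = Equiv.swap (f c.1) (f c.2) (f p) := by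
      intro p hp
      by_cases e1 : p = c.1
      · rw [e1, Equiv.swap_apply_left, Equiv.swap_apply_left]
        exact ⟨hc.2, rfl⟩
      · by_cases e2 : p = c.2
        · rw [e2, Equiv.swap_apply_right, Equiv.swap_apply_right]
          exact ⟨hc.1, rfl⟩
        · rw [Equiv.swap_apply_of_ne_of_ne e1 e2, Equiv.swap_apply_of_ne_of_ne]
          · exact ⟨hp, rfl⟩
          · exact fun e => e1 (hf hp hc.1 e)
          · exact fun e => e2 (hf hp hc.2 e)
    rcases h with h | h
    · exact Or.inl (ih hL' h1 h2 h)
    · right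
      have h3 := ih hL' (key _ h1).1 (key _ h2).1 h
      rw [(key _ h1).2, (key _ h2).2] at h3
      exact h3

end

/-- the single position, if any -/
def zs (o : Bool) (m : ℕ) : List ℕ := if o then [2 * m + 2] else []

theorem chk_all (o : Bool) (t : ℕ) (ht : t < 5) :
    chk (2 * t + 2 + o.toNat) (net (List.range t) (zs o t)) = true := by
  cases o
  · exact chk_even t ht
  · exact chk_odd t ht

/-- the positions of the small network in the big one -/
def emb (T : List ℕ) (m k : ℕ) : ℕ :=
  if k < 2 then k else if k < 2 * T.length + 2 then 2 * T.getD ((k - 2) / 2) 0 + 2 + k % 2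
  else 2 * m + 2

theorem emb_inj {T : List ℕ} (hT : T.Nodup) {m : ℕ} (hm : ∀ i ∈ T, i < m) {k k' : ℕ}
    (hk : k < 2 * T.length + 3) (hk' : k' < 2 * T.length + 3) (h : emb T m k = emb T m k') :
    k = k' := by
  have hg : ∀ k, ¬ k < 2 → k < 2 * T.length + 2 →
      ∃ hj : (k - 2) / 2 < T.length, T.getD ((k - 2) / 2) 0 = T[(k - 2) / 2] ∧
        T.getD ((k - 2) / 2) 0 < m := by
    intro k h1 h2
    have hj : (k - 2) / 2 < T.length := by omega
    refine ⟨hj, List.getD_eq_getElem _ _ hj, ?_⟩
    rw [List.getD_eq_getElem _ _ hj]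
    exact hm _ (List.getElem_mem hj)
  rw [emb, emb] at h
  by_cases h1 : k < 2
  · rw [if_pos h1] at h
    by_cases h2 : k' < 2
    · rw [if_pos h2] at h; exact h
    · rw [if_neg h2] at h
      split_ifs at h <;> omega
  · rw [if_neg h1] at h
    by_cases h2 : k' < 2
    · rw [if_pos h2] at h
      split_ifs at h <;> omega
    · rw [if_neg h2] at h
      by_cases h3 : k < 2 * T.length + 2
      · obtain ⟨hj, e1, e2⟩ := hg k h1 h3
        rw [if_pos h3] at h
        by_cases h4 : k' < 2 * T.length + 2
        · obtain ⟨hj', e1', e2'⟩ := hg k' h2 h4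
          rw [if_pos h4] at h
          have h5 : T.getD ((k - 2) / 2) 0 = T.getD ((k' - 2) / 2) 0 := by omega
          rw [e1, e1'] at h5
          have h6 := (List.Nodup.getElem_inj_iff hT).1 h5
          omega
        · rw [if_neg h4] at h
          omega
      · rw [if_neg h3] at h
        by_cases h4 : k' < 2 * T.length + 2
        · obtain ⟨hj', e1', e2'⟩ := hg k' h2 h4
          rw [if_pos h4] at h
          omega
        · omega

theorem map_net (f : ℕ → ℕ) (T Z T' Z' : List ℕ) (h0 : f 0 = 0) (h1 : f 1 = 1)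
    (ha : (T.map fun i => f (2 * i + 2)) = T'.map fun i => 2 * i + 2)
    (hb : (T.map fun i => f (2 * i + 3)) = T'.map fun i => 2 * i + 3)
    (hab : (T.map fun i => (f (2 * i + 2), f (2 * i + 3))) = T'.map fun i => (2 * i + 2, 2 * i + 3))
    (hz : Z.map f = Z') : (net T Z).map (fun c => (f c.1, f c.2)) = net T' Z' := by
  have e1 : (T.map fun i => (f (2 * i + 2), 0)) = T'.map fun i => (2 * i + 2, 0) := by
    have := congrArg (List.map fun x => (x, 0)) ha
    simpa [List.map_map, Function.comp_def] using this
  have e2 : (T.map fun i => (f (2 * i + 3), 0)) = T'.map fun i => (2 * i + 3, 0) := by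
    have := congrArg (List.map fun x => (x, 0)) hb
    simpa [List.map_map, Function.comp_def] using this
  have e3 : (Z.map fun z => (f z, 0)) = Z'.map fun z => (z, 0) := by
    rw [← hz, List.map_map]
    rfl
  simp only [net, List.map_append, List.map_map, Function.comp_def, List.map_cons, List.map_nil,
    h0, h1, hab, e1, e2, e3]

theorem net_sublist {T T' : List ℕ} (h : T.Sublist T') (Z : List ℕ) :
    (net T Z).Sublist (net T' Z) := by
  rw [net, net]
  exact (h.map _).append ((List.Sublist.refl _).append ((h.map _).append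
    ((List.Sublist.refl _).append ((List.Sublist.refl _).append ((h.map _).append
    ((List.Sublist.refl _).append ((h.map _).append (h.map _))))))))

theorem length_net (T Z : List ℕ) : (net T Z).length = 5 * T.length + 2 * Z.length + 2 := by
  simp only [net, List.length_append, List.length_map, List.length_cons, List.length_nil]
  omega

/-- the small network in the big one -/
theorem map_emb (o : Bool) (T : List ℕ) (m : ℕ) :
    (net (List.range T.length) (zs o T.length)).map (fun c => (emb T m c.1, emb T m c.2))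
      = net T (zs o m) := by
  have ha : ∀ i < T.length, emb T m (2 * i + 2) = 2 * T.getD i 0 + 2 := by
    intro i hi
    rw [emb, if_neg (by omega), if_pos (by omega), show (2 * i + 2 - 2) / 2 = i by omega,
      show (2 * i + 2) % 2 = 0 by omega]
  have hb : ∀ i < T.length, emb T m (2 * i + 3) = 2 * T.getD i 0 + 3 := by
    intro i hi
    rw [emb, if_neg (by omega), if_pos (by omega), show (2 * i + 3 - 2) / 2 = i by omega,
      show (2 * i + 3) % 2 = 1 by omega]
  have hT : ∀ {β : Type} (g : ℕ → β), (List.range T.length).map (fun i => g (T.getD i 0))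
      = T.map g := by
    intro β g
    refine List.ext_getElem (by simp) fun i h1 h2 => ?_
    rw [List.length_map] at h2
    rw [List.getElem_map, List.getElem_map, List.getElem_range, List.getD_eq_getElem _ _ h2]
  refine map_net (emb T m) _ _ _ _ rfl rfl ?_ ?_ ?_ ?_
  · rw [← hT]
    exact List.map_congr_left fun i hi => ha i (List.mem_range.1 hi)
  · rw [← hT]
    exact List.map_congr_left fun i hi => hb i (List.mem_range.1 hi)
  · rw [← hT]
    exact List.map_congr_left fun i hi => by
      rw [ha i (List.mem_range.1 hi), hb i (List.mem_range.1 hi)]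
  · cases o
    · rfl
    · rw [zs, if_pos rfl, zs, if_pos rfl, List.map_cons, List.map_nil, emb, if_neg (by omega),
        if_neg (by omega)]

/-- the big network on numbers -/
theorem big (o : Bool) (m : ℕ) (x x' p q : ℕ) (hx : x < 2 * m + 2 + o.toNat)
    (hx' : x' < 2 * m + 2 + o.toNat) (hp : p < 2 * m + 2 + o.toNat)
    (hq : q < 2 * m + 2 + o.toNat) (hxx : x ≠ x') (hpq : p ≠ q) :
    Rch2 (net (List.range m) (zs o m)) (x, x') (p, q) := by
  classical
  -- the pairs which are met
  obtain ⟨F, hF⟩ : ∃ F : Finset ℕ, F = (({x, x', p, q} : Finset ℕ).filter fun y =>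
      2 ≤ y ∧ y < 2 * m + 2).image fun y => (y - 2) / 2 := ⟨_, rfl⟩
  have hFc : F.card ≤ 4 := by
    rw [hF]
    exact (Finset.card_image_le.trans (Finset.card_filter_le _ _)).trans Finset.card_le_four
  obtain ⟨T, hT⟩ : ∃ T : List ℕ, T = F.sort (· ≤ ·) := ⟨_, rfl⟩
  have hTlen : T.length = F.card := by rw [hT, Finset.length_sort]
  have hTnd : T.Nodup := by rw [hT]; exact Finset.sort_nodup _ _
  have hTmem : ∀ i, i ∈ T ↔ i ∈ F := fun i => by rw [hT, Finset.mem_sort]
  have hTm : ∀ i ∈ T, i < m := by
    intro i hi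
    rw [hTmem, hF] at hi
    obtain ⟨y, hy, rfl⟩ := Finset.mem_image.1 hi
    rw [Finset.mem_filter] at hy
    omega
  have hTs : T.Sublist (List.range m) := by
    refine List.sublist_of_subperm_of_pairwise (r := (· < ·)) ?_ ?_ ?_
    · exact hTnd.subperm fun i hi => List.mem_range.2 (hTm i hi)
    · rw [hT]
      exact (Finset.sortedLT_sort _).pairwise
    · exact List.pairwise_lt_range
  have hchk := chk_spec (chk_all o T.length (by omega))
  -- every point has a preimage
  have hpre : ∀ y, (y = x ∨ y = x' ∨ y = p ∨ y = q) → y < 2 * m + 2 + o.toNat →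
      ∃ k < 2 * T.length + 2 + o.toNat, emb T m k = y := by
    intro y hy hy'
    by_cases h1 : y < 2
    · exact ⟨y, by omega, by rw [emb, if_pos h1]⟩
    · by_cases h2 : y < 2 * m + 2
      · have h3 : (y - 2) / 2 ∈ T := by
          rw [hTmem, hF]
          refine Finset.mem_image.2 ⟨y, Finset.mem_filter.2 ⟨?_, by omega, h2⟩, rfl⟩
          simp only [Finset.mem_insert, Finset.mem_singleton]
          tauto
        obtain ⟨j, hj, h4⟩ := List.getElem_of_mem h3
        refine ⟨2 * j + 2 + y % 2, by omega, ?_⟩
        rw [emb, if_neg (by omega), if_pos (by omega),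
          show (2 * j + 2 + y % 2 - 2) / 2 = j by omega, List.getD_eq_getElem _ _ hj, h4]
        omega
      · refine ⟨2 * T.length + 2, by omega, ?_⟩
        rw [emb, if_neg (by omega), if_neg (by omega)]
        have : o.toNat ≤ 1 := by cases o <;> simp
        omega
  obtain ⟨kx, ex, rfl⟩ := hpre x (by tauto) hx
  obtain ⟨kx', ex', rfl⟩ := hpre x' (by tauto) hx'
  obtain ⟨kp, ep, rfl⟩ := hpre p (by tauto) hp
  obtain ⟨kq, eq, rfl⟩ := hpre q (by tauto) hq
  have h1 := hchk.2 kx kx' kp kq ex ex' ep eq (fun e => hxx (by rw [e])) (fun e => hpq (by rw [e]))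
  have ho : o.toNat ≤ 1 := by cases o <;> simp
  have h2 := h1.map (S := {k | k < 2 * T.length + 2 + o.toNat}) (f := emb T m)
    (fun a (ha : a < _) b (hb : b < _) hab => emb_inj hTnd hTm (by omega)
      (by omega) hab) (fun c hc => hchk.1 c hc) (t := (kp, kq)) ep eq
  rw [map_emb] at h2
  exact h2.sublist (net_sublist hTs _)

end Pool.Agent.LT74
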